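import Pool.Agent.R475.WC

/-! # Two half-plane arcs with the same end points form a polygon -/

set_option autoImplicit false

namespace Run7.h206.ARC

open Pool.Agent.W870.Pg (LF mem_LF le_width le_height)
open Pool.Agent.H924P (IsLoop width height)

/-- sites -/
abbrev P := ℤ × ℤ

/-- neighbours -/
def Adj (p q : P) : Prop := |p.1 - q.1| + |p.2 - q.2| = 1

theorem Adj.symm {p q : P} (h : Adj p q) : Adj q p := by
  unfold Adj at *
  rw [abs_sub_comm q.1, abs_sub_comm q.2]
  exact h

/-- reflection -/
def rf (p : P) : P := (p.1, -1 - p.2)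

theorem rf_inj : Function.Injective rf := by
  intro p q h
  unfold rf at h
  rw [Prod.mk.injEq] at h
  exact Prod.ext h.1 (by omega)

theorem rf_adj {p q : P} (h : Adj p q) : Adj (rf p) (rf q) := by
  unfold Adj rf at *
  simp only
  have : -1 - p.2 - (-1 - q.2) = -(p.2 - q.2) := by ring
  rw [this, abs_neg]
  exact h

/-- half-plane arcs with `m` steps -/
structure Arc (m : ℕ) (l : List P) : Prop where
  len : l.length = m + 1
  hd : l.head? = some (0, 0)
  ch : l.IsChain Adj
  nd : l.Nodup
  up : ∀ p ∈ l, 0 ≤ p.2
  en : ∃ L : ℤ, l.getLast? = some (L, 0)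

/-- displacement -/
def disp (l : List P) : ℤ := (l.getLast?.getD (0, 0)).1

/-- height -/
def hgt (l : List P) : ℕ := l.toFinset.sup (fun p => p.2.toNat)

theorem Arc.last {m : ℕ} {l : List P} (h : Arc m l) : l.getLast? = some (disp l, 0) := by
  obtain ⟨L, hL⟩ := h.en
  unfold disp
  rw [hL]
  rfl

theorem Arc.pos {m : ℕ} {l : List P} (h : Arc m l) : 0 < l.length := by rw [h.len]; omega

theorem le_hgt {l : List P} {p : P} (hp : p ∈ l) : p.2 ≤ (hgt l : ℤ) := by
  unfold hgt
  have := Finset.le_sup (f := fun p : P => p.2.toNat) (List.mem_toFinset.2 hp)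
  omega

theorem exists_hgt {m : ℕ} {l : List P} (h : Arc m l) : ∃ p ∈ l, p.2 = (hgt l : ℤ) := by
  have hne : l.toFinset.Nonempty := by
    obtain ⟨p, hp⟩ := List.exists_mem_of_length_pos h.pos
    exact ⟨p, List.mem_toFinset.2 hp⟩
  obtain ⟨p, hp, he⟩ := Finset.exists_mem_eq_sup l.toFinset hne (fun p => p.2.toNat)
  rw [List.mem_toFinset] at hp
  refine ⟨p, hp, ?_⟩
  unfold hgt
  rw [he]
  have := h.up p hp
  omega

/-- the glued list -/
def gl (l l' : List P) : List P := l ++ (l'.map rf).reverse

theorem gl_length (l l' : List P) : (gl l l').length = l.length + l'.length := by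
  simp [gl]

theorem gl_left {l l' : List P} {i : ℕ} (hi : i < l.length) :
    (gl l l').getD i (0, 0) = l[i] := by
  unfold gl
  rw [List.getD_eq_getElem _ _ (by simp; omega), List.getElem_append_left hi]

theorem gl_mem_right {l l' : List P} {i : ℕ} (hi : l.length ≤ i) (hi2 : i < l.length + l'.length) :
    ∃ p ∈ l', (gl l l').getD i (0, 0) = rf p := by
  unfold gl
  rw [List.getD_eq_getElem _ _ (by simp; omega), List.getElem_append_right hi]
  have h1 : ((l'.map rf).reverse)[i - l.length]'(by simp; omega) ∈ (l'.map rf).reverse :=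
    List.getElem_mem _
  rw [List.mem_reverse, List.mem_map] at h1
  obtain ⟨p, hp, he⟩ := h1
  exact ⟨p, hp, he.symm⟩

/-- closed lists -/
structure Cl (M : ℕ) (g : List P) : Prop where
  len : g.length = M
  hd : g.head? = some (0, 0)
  ch : g.IsChain Adj
  nd : g.Nodup
  cl : ∀ b, g.getLast? = some b → Adj b (0, 0)

/-- the loop of a list -/
def loop (M : ℕ) (g : List P) : ZMod M → P := fun i => g.getD i.val (0, 0)

theorem loop_zero {M : ℕ} [NeZero M] {g : List P} (h : Cl M g) : loop M g 0 = (0, 0) := by
  unfold loop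
  have h1 := h.hd
  rw [List.head?_eq_getElem?] at h1
  rw [ZMod.val_zero, List.getD_eq_getElem?_getD, h1]
  rfl

theorem loop_inj {M : ℕ} [NeZero M] {g : List P} (h : Cl M g) : Function.Injective (loop M g) := by
  intro i j hij
  unfold loop at hij
  have hi := ZMod.val_lt i
  have hj := ZMod.val_lt j
  have hl := h.len
  rw [List.getD_eq_getElem _ _ (by omega), List.getD_eq_getElem _ _ (by omega)] at hij
  exact ZMod.val_injective M ((List.Nodup.getElem_inj_iff h.nd).mp hij)

theorem val_succ {M : ℕ} [NeZero M] {i : ZMod M} (h : i.val + 1 < M) : (i + 1).val = i.val + 1 := by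
  rw [ZMod.val_add, ZMod.val_one'']
  · exact Nat.mod_eq_of_lt h
  · omega

theorem succ_zero {M : ℕ} [NeZero M] {i : ZMod M} (h : i.val + 1 = M) : i + 1 = 0 := by
  have h2 : ((i.val + 1 : ℕ) : ZMod M) = 0 := by rw [h]; exact ZMod.natCast_self M
  push_cast at h2
  rwa [ZMod.natCast_zmod_val] at h2

theorem loop_adj {M : ℕ} [NeZero M] {g : List P} (h : Cl M g) (i : ZMod M) :
    Adj (loop M g i) (loop M g (i + 1)) := by
  have hi := ZMod.val_lt i
  have hl := h.len
  by_cases h1 : i.val + 1 < M
  · unfold loop
    rw [val_succ h1, List.getD_eq_getElem _ _ (by omega), List.getD_eq_getElem _ _ (by omega)]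
    exact List.isChain_iff_getElem.mp h.ch i.val (by omega)
  · rw [succ_zero (by omega : i.val + 1 = M), loop_zero h]
    apply h.cl
    unfold loop
    rw [List.getLast?_eq_getElem?, List.getD_eq_getElem _ _ (by omega),
      List.getElem?_eq_getElem (by omega)]
    congr 2
    omega

/-- the loop with another root -/
def lp (M : ℕ) (g : List P) (s : ZMod M) : ZMod M → P := fun i => loop M g (i + s) - loop M g s

theorem lp_loop {M : ℕ} [NeZero M] {g : List P} (h : Cl M g) (s : ZMod M) :
    IsLoop M (lp M g s) := by
  refine ⟨?_, ?_, ?_⟩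
  · unfold lp
    rw [zero_add, sub_self]
  · intro i j hij
    unfold lp at hij
    have := loop_inj h (sub_left_inj.1 hij)
    exact add_right_cancel this
  · intro i
    have h1 := (loop_adj h (i + s)).symm
    unfold Adj at h1
    unfold lp
    have e : i + 1 + s = i + s + 1 := by ring
    rw [e]
    simp only [Prod.fst_sub, Prod.snd_sub, sub_sub_sub_cancel_right]
    exact h1

theorem cl_gl {m k M : ℕ} {l l' : List P} (h : Arc m l) (h' : Arc k l') (hM : m + k + 2 = M)
    (hd : disp l = disp l') : Cl M (gl l l') where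
  len := by rw [gl_length, h.len, h'.len]; omega
  hd := by
    unfold gl
    rw [List.head?_append, h.hd]
    rfl
  ch := by
    unfold gl
    rw [List.isChain_append]
    refine ⟨h.ch, ?_, ?_⟩
    · rw [List.isChain_reverse, List.isChain_map]
      exact h'.ch.imp (fun _ _ hab => (rf_adj hab).symm)
    · intro x hx y hy
      rw [h.last] at hx
      rw [List.head?_reverse, List.getLast?_map, h'.last] at hy
      simp only [Option.mem_def, Option.some.injEq, Option.map_some] at hx hy
      subst hx hy
      unfold Adj rf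
      rw [hd]
      simp
  nd := by
    unfold gl
    rw [List.nodup_append]
    refine ⟨h.nd, ?_, ?_⟩
    · rw [List.nodup_reverse]
      exact h'.nd.map rf_inj
    · intro a ha b hb hab
      subst hab
      rw [List.mem_reverse, List.mem_map] at hb
      obtain ⟨q, hq, rfl⟩ := hb
      have h1 := h.up _ ha
      have h2 := h'.up _ hq
      unfold rf at h1
      simp only at h1
      omega
  cl := by
    intro b hb
    unfold gl at hb
    rw [List.getLast?_append, List.getLast?_reverse, List.head?_map, h'.hd] at hb
    simp only [Option.map_some, Option.some_or, Option.some.injEq] at hb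
    subst hb
    unfold Adj rf
    simp

/-- data for a glued and rerooted polygon -/
structure Dt (M : ℕ) (l l' : List P) : Prop where
  a : ∃ m, Arc m l
  b : ∃ m, Arc m l'
  M : l.length + l'.length = M
  d : disp l = disp l'

theorem Dt.cl {M : ℕ} {l l' : List P} (h : Dt M l l') : Cl M (gl l l') := by
  obtain ⟨m, hm⟩ := h.a
  obtain ⟨k, hk⟩ := h.b
  refine cl_gl hm hk ?_ h.d
  have := h.M
  rw [hm.len, hk.len] at this
  omega

theorem Dt.up {M : ℕ} [NeZero M] {l l' : List P} (h : Dt M l l') (i : ZMod M) :
    0 ≤ (loop M (gl l l') i).2 ↔ i.val < l.length := by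
  obtain ⟨m, hm⟩ := h.a
  obtain ⟨k, hk⟩ := h.b
  have hi := ZMod.val_lt i
  have hM := h.M
  unfold loop
  constructor
  · intro h1
    by_contra h2
    obtain ⟨p, hp, he⟩ := gl_mem_right (l := l) (l' := l') (i := i.val) (by omega) (by omega)
    rw [he] at h1
    have := hk.up p hp
    unfold rf at h1
    simp only at h1
    omega
  · intro h1
    rw [gl_left h1]
    exact hm.up _ (List.getElem_mem _)

/-- the level of the base line -/
def lev (M : ℕ) (l l' : List P) (s : ZMod M) : ℤ := -(loop M (gl l l') s).2

theorem lp_snd {M : ℕ} (l l' : List P) (s i : ZMod M) :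
    (lp M (gl l l') s i).2 = (loop M (gl l l') (i + s)).2 + lev M l l' s := by
  unfold lp lev
  simp only [Prod.snd_sub]
  ring

theorem base {M : ℕ} [NeZero M] {l l' : List P} (h : Dt M l l') (s : ZMod M) :
    (lp M (gl l l') s (-s)).2 = lev M l l' s := by
  rw [lp_snd, neg_add_cancel, loop_zero h.cl]
  simp

/-- the polygon and the level determine the arcs and the root -/
theorem inj_aux {M : ℕ} [NeZero M] {l l' k k' : List P} {s t : ZMod M} (h : Dt M l l')
    (h2 : Dt M k k') (he : lp M (gl l l') s = lp M (gl k k') t)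
    (hv : lev M l l' s = lev M k k' t) : l = k ∧ l' = k' ∧ s = t := by
  have hpos1 : 0 < l.length := by
    obtain ⟨m, hm⟩ := h.a
    exact hm.pos
  have hpos2 : 0 < l'.length := by
    obtain ⟨m, hm⟩ := h.b
    exact hm.pos
  have hpos3 : 0 < k.length := by
    obtain ⟨m, hm⟩ := h2.a
    exact hm.pos
  have hM := h.M
  have hM2 := h2.M
  have e1 : ∀ i, (loop M (gl l l') (i + s)).2 = (loop M (gl k k') (i + t)).2 := by
    intro i
    have h3 := congrArg Prod.snd (congrFun he i)
    rw [lp_snd, lp_snd, hv] at h3
    linarith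
  have hst : s = t := by
    have a1 := e1 (-s)
    rw [neg_add_cancel, loop_zero h.cl] at a1
    have a2 : 0 ≤ (loop M (gl k k') (-s + t)).2 := by rw [← a1]
    rw [h2.up] at a2
    have a3 := e1 (-s - 1)
    have e2 : -s - 1 + s = -1 := by ring
    rw [e2] at a3
    have a4 : ¬ 0 ≤ (loop M (gl l l') (-1)).2 := by
      rw [h.up]
      obtain ⟨n, rfl⟩ : ∃ n, M = n + 1 := ⟨M - 1, by omega⟩
      rw [ZMod.val_neg_one]
      omega
    rw [a3, h2.up] at a4
    by_contra hne
    apply a4
    have h5 : (-s - 1 + t).val + 1 < M ∨ (-s - 1 + t).val + 1 = M := by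
      have := ZMod.val_lt (-s - 1 + t)
      omega
    have e3 : -s - 1 + t + 1 = -s + t := by ring
    rcases h5 with h5 | h5
    · have h6 := val_succ h5
      rw [e3] at h6
      omega
    · have h6 := succ_zero h5
      rw [e3] at h6
      exact absurd (neg_add_eq_zero.1 h6) hne
  subst hst
  have e2 : loop M (gl l l') s = loop M (gl k k') s := by
    have h3 := congrFun he (-s)
    unfold lp at h3
    rw [neg_add_cancel, loop_zero h.cl, loop_zero h2.cl] at h3
    exact sub_right_injective h3
  have e3 : gl l l' = gl k k' := by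
    refine List.ext_getElem ?_ ?_
    · rw [gl_length, gl_length]; omega
    · intro i hi hi'
      have h3 := congrFun he ((i : ℕ) - s : ZMod M)
      unfold lp at h3
      rw [sub_add_cancel, e2] at h3
      have h4 := sub_left_injective h3
      unfold loop at h4
      rw [gl_length] at hi hi'
      rw [ZMod.val_natCast, Nat.mod_eq_of_lt (by omega), List.getD_eq_getElem _ _ (by
        rw [gl_length]; omega), List.getD_eq_getElem _ _ (by rw [gl_length]; omega)] at h4
      exact h4
  have e4 : l.length = k.length := by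
    by_contra hne
    have key : ∀ {a a' b b' : List P}, Dt M a a' → Dt M b b' → gl a a' = gl b b' →
        ¬ a.length < b.length := by
      intro a a' b b' ha hb hab hlt
      have hbl : b.length < M := by
        obtain ⟨m, hm⟩ := hb.b
        have := hm.pos
        have := hb.M
        omega
      have h3 := ha.up ((a.length : ℕ) : ZMod M)
      have h4 := hb.up ((a.length : ℕ) : ZMod M)
      rw [hab, h4, ZMod.val_natCast, Nat.mod_eq_of_lt (by omega)] at h3
      omega
    rcases Nat.lt_or_gt_of_ne hne with h3 | h3
    · exact key h h2 e3 h3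
    · exact key h2 h e3.symm h3
  unfold gl at e3
  obtain ⟨h5, h6⟩ := List.append_inj e3 e4
  refine ⟨h5, ?_, rfl⟩
  rw [List.reverse_inj] at h6
  exact List.map_injective_iff.2 rf_inj h6

/-- the level is determined by the height of the first arc -/
theorem lev_of_hgt {M : ℕ} [NeZero M] {l l' k k' : List P} {s t : ZMod M} (h : Dt M l l')
    (h2 : Dt M k k') (he : lp M (gl l l') s = lp M (gl k k') t)
    (hv : hgt l = hgt k) : lev M l l' s = lev M k k' t := by
  have key : ∀ {a a' b b' : List P} {u v : ZMod M}, Dt M a a' → Dt M b b' →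
      lp M (gl a a') u = lp M (gl b b') v → hgt a = hgt b → lev M a a' u ≤ lev M b b' v := by
    intro a a' b b' u v ha hb hab hh
    obtain ⟨m, hm⟩ := ha.a
    obtain ⟨n, hn⟩ := hb.a
    obtain ⟨n', hn'⟩ := hb.b
    obtain ⟨p, hp, hpe⟩ := exists_hgt hm
    obtain ⟨i, hi, rfl⟩ := List.getElem_of_mem hp
    have hM := ha.M
    have e1 : loop M (gl a a') (i : ZMod M) = a[i] := by
      unfold loop
      rw [ZMod.val_natCast, Nat.mod_eq_of_lt (by omega), gl_left hi]
    have e2 := congrArg Prod.snd (congrFun hab ((i : ZMod M) - u))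
    rw [lp_snd, lp_snd, sub_add_cancel, e1, hpe] at e2
    have e3 : (loop M (gl b b') ((i : ZMod M) - u + v)).2 ≤ (hgt b : ℤ) := by
      by_cases h3 : 0 ≤ (loop M (gl b b') ((i : ZMod M) - u + v)).2
      · have h4 := (hb.up _).1 h3
        unfold loop
        rw [gl_left h4]
        exact le_hgt (List.getElem_mem _)
      · omega
    rw [hh] at e2
    omega
  exact le_antisymm (key h h2 he hv) (key h2 h he.symm hv.symm)

/-- the level is determined by the length of the first arc -/
theorem lev_of_len {M : ℕ} [NeZero M] {l l' k k' : List P} {s t : ZMod M} (h : Dt M l l')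
    (h2 : Dt M k k') (he : lp M (gl l l') s = lp M (gl k k') t)
    (hv : l.length = k.length) : lev M l l' s = lev M k k' t := by
  classical
  have key : ∀ {a a' b b' : List P} {u v : ZMod M}, Dt M a a' → Dt M b b' →
      lp M (gl a a') u = lp M (gl b b') v → a.length = b.length →
      ¬ lev M a a' u < lev M b b' v := by
    intro a a' b b' u v ha hb hab hh hlt
    have card : ∀ {c c' : List P}, Dt M c c' → ∀ w : ZMod M,
        ((Finset.univ : Finset (ZMod M)).filter
          (fun i => lev M c c' w ≤ (lp M (gl c c') w i).2)).card = c.length := by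
      intro c c' hc w
      have hcM : c.length ≤ M := by have := hc.M; omega
      have e : ((Finset.univ : Finset (ZMod M)).filter
          (fun i => lev M c c' w ≤ (lp M (gl c c') w i).2)) =
          (Finset.range c.length).image (fun j : ℕ => (j : ZMod M) - w) := by
        ext i
        rw [Finset.mem_filter, Finset.mem_image, lp_snd]
        have h3 := hc.up (i + w)
        constructor
        · rintro ⟨-, h4⟩
          refine ⟨(i + w).val, Finset.mem_range.2 (h3.1 (by linarith)), ?_⟩
          rw [ZMod.natCast_zmod_val]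
          ring
        · rintro ⟨j, hj, rfl⟩
          rw [Finset.mem_range] at hj
          refine ⟨Finset.mem_univ _, ?_⟩
          have hjM : j < M := by
            obtain ⟨m, hm⟩ := hc.b
            have := hm.pos
            have := hc.M
            omega
          have h4 : 0 ≤ (loop M (gl c c') ((j : ZMod M) - w + w)).2 := by
            rw [h3, sub_add_cancel, ZMod.val_natCast, Nat.mod_eq_of_lt hjM]
            exact hj
          linarith
      rw [e, Finset.card_image_of_injOn, Finset.card_range]
      intro i hi j hj hij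
      rw [Finset.mem_coe, Finset.mem_range] at hi hj
      have h3 : (i : ZMod M) = j := sub_left_injective hij
      have h4 := congrArg ZMod.val h3
      obtain ⟨m, hm⟩ := hc.b
      have := hm.pos
      have := hc.M
      rwa [ZMod.val_natCast, ZMod.val_natCast, Nat.mod_eq_of_lt (by omega),
        Nat.mod_eq_of_lt (by omega)] at h4
    have c1 := card ha u
    have c2 := card hb v
    have h3 : ((Finset.univ : Finset (ZMod M)).filter
          (fun i => lev M b b' v ≤ (lp M (gl b b') v i).2)) ⊆
        ((Finset.univ : Finset (ZMod M)).filter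
          (fun i => lev M a a' u ≤ (lp M (gl a a') u i).2)) := by
      intro i hi
      rw [Finset.mem_filter] at hi ⊢
      rw [hab]
      exact ⟨hi.1, hlt.le.trans hi.2⟩
    have h4 := Finset.eq_of_subset_of_card_le h3 (by rw [c1, c2, hh])
    have h5 : -u ∈ ((Finset.univ : Finset (ZMod M)).filter
          (fun i => lev M a a' u ≤ (lp M (gl a a') u i).2)) := by
      rw [Finset.mem_filter, base ha]
      exact ⟨Finset.mem_univ _, le_rfl⟩
    rw [← h4, Finset.mem_filter, ← hab, base ha] at h5
    omega
  by_contra hne
  rcases lt_or_gt_of_ne hne with h3 | h3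
  · exact key h h2 he hv h3
  · exact key h2 h he.symm hv.symm h3

/-- the width of the polygon -/
theorem width_le {M : ℕ} [NeZero M] {l l' : List P} (h : Dt M l l') (s : ZMod M) :
    (disp l).natAbs ≤ width M (lp M (gl l l') s) := by
  obtain ⟨m, hm⟩ := h.a
  obtain ⟨k, hk⟩ := h.b
  have hM := h.M
  have h1 := le_width (lp M (gl l l') s) (((l.length - 1 : ℕ) : ZMod M) - s) (-s)
  have h2 : loop M (gl l l') ((l.length - 1 : ℕ) : ZMod M) = (disp l, 0) := by
    unfold loop
    have h3 := hm.last
    have h4 := hm.pos
    rw [List.getLast?_eq_getElem?, List.getElem?_eq_getElem (by omega)] at h3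
    rw [ZMod.val_natCast, Nat.mod_eq_of_lt (by omega), gl_left (by omega)]
    exact Option.some.inj h3
  unfold lp at h1
  rw [sub_add_cancel, neg_add_cancel, h2, loop_zero h.cl] at h1
  simp only [Prod.fst_sub, sub_sub_sub_cancel_right, sub_zero] at h1
  exact h1

/-- the height of the polygon -/
theorem height_le {M : ℕ} [NeZero M] {l l' : List P} (h : Dt M l l') (s : ZMod M) :
    hgt l + hgt l' + 1 ≤ height M (lp M (gl l l') s) := by
  obtain ⟨m, hm⟩ := h.a
  obtain ⟨k, hk⟩ := h.b
  have hM := h.M
  obtain ⟨p, hp, hpe⟩ := exists_hgt hm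
  obtain ⟨i, hi, rfl⟩ := List.getElem_of_mem hp
  obtain ⟨q, hq, hqe⟩ := exists_hgt hk
  have hq2 : rf q ∈ (l'.map rf).reverse := by
    rw [List.mem_reverse]
    exact List.mem_map_of_mem hq
  obtain ⟨j, hj, hje⟩ := List.getElem_of_mem hq2
  rw [List.length_reverse, List.length_map] at hj
  have h1 := le_height (lp M (gl l l') s) ((i : ZMod M) - s) (((l.length + j : ℕ) : ZMod M) - s)
  have e1 : loop M (gl l l') (i : ZMod M) = l[i] := by
    unfold loop
    rw [ZMod.val_natCast, Nat.mod_eq_of_lt (by omega), gl_left hi]
  have e2 : loop M (gl l l') ((l.length + j : ℕ) : ZMod M) = rf q := by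
    unfold loop gl
    rw [ZMod.val_natCast, Nat.mod_eq_of_lt (by omega), List.getD_eq_getElem _ _ (by simp; omega),
      List.getElem_append_right (by omega)]
    simp only [Nat.add_sub_cancel_left]
    exact hje
  rw [lp_snd, lp_snd, sub_add_cancel, sub_add_cancel, e1, e2] at h1
  unfold rf at h1
  simp only at h1
  rw [hpe, hqe] at h1
  omega

end Run7.h206.ARC
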